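import Pool.Agent.H38.ER.Ten

open Pool.Agent.H38.ER

theorem Pool.Agent.Results.MP_50cd9e_lc.Hard.result :
    ERHardOn (fun p : ℕ × List (List (List ℚ)) × ℚ => Shape p.1 p.2.1 ∧ 0 < p.2.2)
      fun p => (p.2.2 : ℝ) < specNorm p.1 p.2.1 :=
  spec_erh.hardOn
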